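import Pool.Agent.Helper7.KSZ.N9

/-!
Project KSZ, N10: the kernel of the duality argument.
-/

set_option autoImplicit false

open Finset MeasureTheory

namespace Pool.Agent.Helper7.KSZ

open Pool.Agent.Helper18.KSZ

theorem sum_mult (G : ℕ → ℂ) (M d : ℕ) (hd : 1 ≤ d) (hG : ∀ k, M < k → G k = 0) :
    ∑ n ∈ (Icc 1 M).filter (fun n => d ∣ n), G n = ∑ m ∈ Icc 1 M, G (d * m) := by
  have h1 : ∑ m ∈ Icc 1 M, G (d * m) = ∑ m ∈ (Icc 1 M).filter (fun m => d * m ≤ M), G (d * m) := by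
    rw [Finset.sum_filter]
    refine Finset.sum_congr rfl fun m _ => ?_
    split_ifs with h
    · rfl
    · exact hG _ (by omega)
  rw [h1]
  refine Finset.sum_nbij' (fun n => n / d) (fun m => d * m) ?_ ?_ ?_ ?_ ?_
  · intro n hn
    simp only [mem_filter, mem_Icc] at hn ⊢
    obtain ⟨⟨h2, h3⟩, k, rfl⟩ := hn
    rw [Nat.mul_div_cancel_left k (by omega)]
    have hk : 1 ≤ k := by
      rcases Nat.eq_zero_or_pos k with h | h
      · rw [h] at h2; simp at h2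
      · exact h
    refine ⟨⟨hk, ?_⟩, h3⟩
    calc k = 1 * k := (one_mul k).symm
      _ ≤ d * k := Nat.mul_le_mul_right k hd
      _ ≤ M := h3
  · intro m hm
    simp only [mem_filter, mem_Icc] at hm ⊢
    refine ⟨⟨?_, hm.2⟩, Dvd.intro _ rfl⟩
    exact Nat.mul_pos (by omega) (by omega)
  · intro n hn
    simp only [mem_filter, mem_Icc] at hn
    exact Nat.mul_div_cancel' hn.2
  · intro m _
    exact Nat.mul_div_cancel_left m (by omega)
  · intro n hn
    simp only [mem_filter, mem_Icc] at hn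
    rw [Nat.mul_div_cancel' hn.2]

theorem sum_div_swap (F : ℕ → ℕ → ℂ) (M : ℕ) :
    ∑ n ∈ Icc 1 M, ∑ d ∈ n.divisors, F d n
      = ∑ d ∈ Icc 1 M, ∑ n ∈ (Icc 1 M).filter (fun n => d ∣ n), F d n := by
  refine Finset.sum_comm' ?_
  intro n d
  simp only [mem_Icc, Nat.mem_divisors, mem_filter]
  constructor
  · rintro ⟨⟨h1, h2⟩, h3, h4⟩
    refine ⟨⟨⟨h1, h2⟩, h3⟩, Nat.pos_of_dvd_of_pos h3 (by omega), (Nat.le_of_dvd (by omega) h3).trans h2⟩
  · rintro ⟨⟨⟨h1, h2⟩, h3⟩, h4, h5⟩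
    exact ⟨⟨h1, h2⟩, h3, by omega⟩

/-- the kernel as a double sum -/
theorem ker_eq {K C w X : ℝ} {lam : ℕ → ℝ} (hX : 1 < X) (hK : w ^ K ≤ X)
    (h : SW K C w lam) (s : ℂ) :
    Ker lam X s = ∑ d ∈ Icc 1 ⌊w ^ K⌋₊, (lam d : ℂ) * (d : ℂ) ^ (-s) *
      ∑ m ∈ Icc 1 ⌊X⌋₊, (trap X ((d : ℝ) * m) : ℂ) * (m : ℂ) ^ (-s) := by
  have hX0 : 0 < X := by linarith
  have hLpos : 0 < Real.log X := Real.log_pos hX
  set M := ⌊X⌋₊ with hM
  have hvan : ∀ k : ℕ, M < k → trap X (k : ℝ) = 0 := by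
    intro k hk
    have hkX : X < k := Nat.lt_of_floor_lt hk
    apply trap_zero'
    rw [le_div_iff₀ hLpos]
    have h1 : Real.log X ≤ Real.log k := Real.log_le_log hX0 hkX.le
    linarith
  unfold Ker
  have e1 : ∀ n ∈ Icc 1 M, ((bet lam n * trap X n : ℝ) : ℂ) * (n : ℂ) ^ (-s)
      = ∑ d ∈ n.divisors, (lam d : ℂ) * ((trap X (n : ℝ) : ℂ) * (n : ℂ) ^ (-s)) := by
    intro n _
    rw [← Finset.sum_mul]
    unfold bet
    push_cast
    ring
  rw [Finset.sum_congr rfl e1, sum_div_swap (fun d n => (lam d : ℂ) * ((trap X (n : ℝ) : ℂ) *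
    (n : ℂ) ^ (-s))) M]
  have hDM : ⌊w ^ K⌋₊ ≤ M := Nat.floor_le_floor hK
  rw [← Finset.sum_subset (Finset.Icc_subset_Icc_right hDM)]
  · refine Finset.sum_congr rfl fun d hd => ?_
    rw [mem_Icc] at hd
    rw [← Finset.mul_sum, sum_mult (fun n => (trap X (n : ℝ) : ℂ) * (n : ℂ) ^ (-s)) M d hd.1
      (fun k hk => by rw [hvan k hk]; simp), mul_assoc]
    congr 1
    rw [Finset.mul_sum]
    refine Finset.sum_congr rfl fun m _ => ?_
    push_cast
    rw [Complex.natCast_mul_natCast_cpow]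
    ring
  · intro d hd hd'
    rw [mem_Icc] at hd
    have hlam : lam d = 0 := by
      by_contra hne
      obtain ⟨h1, -, h3⟩ := h.supp d hne
      apply hd'
      rw [mem_Icc]
      exact ⟨h1, Nat.le_floor h3⟩
    refine Finset.sum_eq_zero fun n _ => ?_
    rw [hlam]; simp

theorem itr_bound {X : ℝ} {s : ℂ} (hX : 1 < X) (hs2 : s.re ≤ 1) (him : s.im ≠ 0) :
    ‖Itr X s‖ ≤ 120 * X ^ ((1 - s.re) / 4) / (Real.log X * s.im ^ 2) := by
  have hX0 : 0 < X := by linarith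
  have hLpos : 0 < Real.log X := Real.log_pos hX
  have hb : ∀ k : ℝ, 4 ≤ k → ‖(X : ℂ) ^ ((1 - s) / k)‖ ≤ X ^ ((1 - s.re) / 4) := by
    intro k hk
    rw [Complex.norm_cpow_eq_rpow_re_of_pos hX0]
    apply Real.rpow_le_rpow_of_exponent_le hX.le
    have e : ((1 - s) / (k : ℂ)).re = (1 - s.re) / k := by
      rw [Complex.div_ofReal_re]; simp
    rw [e]
    exact div_le_div_of_nonneg_left (by linarith) (by norm_num) hk
  unfold Itr
  rw [norm_div]
  have hnum : ‖20 * ((X : ℂ) ^ ((1 - s) / 4) - (X : ℂ) ^ ((1 - s) / 5)) -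
      40 * ((X : ℂ) ^ ((1 - s) / 20) - (X : ℂ) ^ ((1 - s) / 40))‖ ≤ 120 * X ^ ((1 - s.re) / 4) := by
    have b4 := hb 4 (by norm_num)
    have b5 := hb 5 (by norm_num)
    have b20 := hb 20 (by norm_num)
    have b40 := hb 40 (by norm_num)
    push_cast at b4 b5 b20 b40
    have n1 := norm_sub_le (20 * ((X : ℂ) ^ ((1 - s) / 4) - (X : ℂ) ^ ((1 - s) / 5)))
      (40 * ((X : ℂ) ^ ((1 - s) / 20) - (X : ℂ) ^ ((1 - s) / 40)))
    have n2 := norm_sub_le ((X : ℂ) ^ ((1 - s) / 4)) ((X : ℂ) ^ ((1 - s) / 5))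
    have n3 := norm_sub_le ((X : ℂ) ^ ((1 - s) / 20)) ((X : ℂ) ^ ((1 - s) / 40))
    rw [norm_mul, norm_mul] at n1
    have e20 : ‖(20 : ℂ)‖ = 20 := by norm_num
    have e40 : ‖(40 : ℂ)‖ = 40 := by norm_num
    rw [e20, e40] at n1
    linarith
  have hden : Real.log X * s.im ^ 2 ≤ ‖(Real.log X : ℂ) * (1 - s) ^ 2‖ := by
    rw [norm_mul, norm_pow, Complex.norm_real, Real.norm_of_nonneg hLpos.le]
    refine mul_le_mul_of_nonneg_left ?_ hLpos.le
    have h1 : |s.im| ≤ ‖1 - s‖ := by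
      have h2 := Complex.abs_im_le_norm (1 - s)
      simpa using h2
    calc s.im ^ 2 = |s.im| ^ 2 := (sq_abs _).symm
      _ ≤ ‖1 - s‖ ^ 2 := pow_le_pow_left₀ (abs_nonneg _) h1 2
  have hpos : 0 < Real.log X * s.im ^ 2 := by positivity
  exact div_le_div₀ (by positivity) hnum hpos hden

theorem kerBound (h8 : InnerSmall) (h9 : InnerLarge) : KerBound := by
  intro K C hK hC
  obtain ⟨C8, X8, hC8, H8⟩ := h8
  obtain ⟨c9, ε9, X9, hc9, hε9, H9⟩ := h9
  -- constants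
  set ε := min (min ε9 c9) (1 / 10) with hε
  have hεpos : 0 < ε := lt_min (lt_min hε9 hc9) (by norm_num)
  have hε1 : ε ≤ ε9 := (min_le_left _ _).trans (min_le_left _ _)
  have hε2 : ε ≤ c9 := (min_le_left _ _).trans (min_le_right _ _)
  have hε3 : ε ≤ 1 / 10 := min_le_right _ _
  obtain ⟨Z, hZ⟩ : ∃ Z : ℝ, Z = ∑' d : ℕ, (d : ℝ) ^ (-(1 + ε)) := ⟨_, rfl⟩
  have hZsum : Summable fun d : ℕ => (d : ℝ) ^ (-(1 + ε)) :=
    Real.summable_nat_rpow.2 (by linarith)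
  have hZ0 : 0 ≤ Z := hZ ▸ tsum_nonneg fun m => Real.rpow_nonneg (Nat.cast_nonneg m) _
  set c := min (c9 / 4) (1 / 1000) with hc
  have hcpos : 0 < c := lt_min (by linarith) (by norm_num)
  have hc1 : c ≤ c9 / 4 := min_le_left _ _
  have hc2 : c ≤ 1 / 1000 := min_le_right _ _
  set K0 := (3 * C8 + 1) * Z + 1 with hK0
  have hK0pos : 1 ≤ K0 := by
    have : 0 ≤ (3 * C8 + 1) * Z := by positivity
    linarith
  refine ⟨c, ε, 120 * C, max (max X8 X9) (max 2 (K0 ^ (1 / c))), hcpos, hεpos, by positivity,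
    fun X hX w lam hw hwK hSW s hs1 hs2 him him2 => ?_⟩
  have hX8 : X8 ≤ X := (le_max_left _ _).trans ((le_max_left _ _).trans hX)
  have hX9 : X9 ≤ X := (le_max_right _ _).trans ((le_max_left _ _).trans hX)
  have hX2 : 2 ≤ X := (le_max_left _ _).trans ((le_max_right _ _).trans hX)
  have hXK : K0 ^ (1 / c) ≤ X := (le_max_right _ _).trans ((le_max_right _ _).trans hX)
  have hX1 : 1 < X := by linarith
  have hX0 : 0 < X := by linarith
  have hLpos : 0 < Real.log X := Real.log_pos hX1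
  have hlogw : 0 < Real.log w := Real.log_pos (by linarith)
  have hwX : w ^ K ≤ X := hwK.trans (by
    calc X ^ (1 / 100 : ℝ) ≤ X ^ (1 : ℝ) := Real.rpow_le_rpow_of_exponent_le hX1.le (by norm_num)
      _ = X := Real.rpow_one X)
  have hKc : K0 ≤ X ^ c := by
    calc K0 = (K0 ^ (1 / c)) ^ c := by
          rw [← Real.rpow_mul (by linarith), one_div, inv_mul_cancel₀ hcpos.ne', Real.rpow_one]
      _ ≤ X ^ c := Real.rpow_le_rpow (by positivity) hXK hcpos.le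
  rw [ker_eq hX1 hwX hSW s]
  set D := ⌊w ^ K⌋₊ with hD
  have hDX : (D : ℝ) ≤ X ^ (1 / 100 : ℝ) := (Nat.floor_le (by positivity)).trans hwK
  -- the sum of `d ^ (-Re s)`
  have hdsum : ∀ R : ℝ, 0 ≤ R → ∀ f : ℕ → ℂ, (∀ d ∈ Icc 1 D, ‖f d‖ ≤ R) →
      ‖∑ d ∈ Icc 1 D, (lam d : ℂ) * (d : ℂ) ^ (-s) * f d‖ ≤ X ^ (2 * ε / 100) * Z * R := by
    intro R hR f hf
    have hd1 : ∀ d ∈ Icc 1 D, ‖(lam d : ℂ) * (d : ℂ) ^ (-s) * f d‖ ≤
        X ^ (2 * ε / 100) * R * (d : ℝ) ^ (-(1 + ε)) := by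
      intro d hd
      have hd' := hd
      rw [mem_Icc] at hd
      have hd0 : (0 : ℝ) < d := by exact_mod_cast hd.1
      have hd1' : (1 : ℝ) ≤ d := by exact_mod_cast hd.1
      have hdX : (d : ℝ) ≤ X ^ (1 / 100 : ℝ) := by
        have : (d : ℝ) ≤ D := by exact_mod_cast hd.2
        exact this.trans hDX
      rw [norm_mul, norm_mul, Complex.norm_real, Real.norm_eq_abs]
      have h1 : ‖(d : ℂ) ^ (-s)‖ ≤ X ^ (2 * ε / 100) * (d : ℝ) ^ (-(1 + ε)) := by
        rw [show (d : ℂ) = ((d : ℝ) : ℂ) by push_cast; rfl,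
          Complex.norm_cpow_eq_rpow_re_of_pos hd0, Complex.neg_re]
        calc (d : ℝ) ^ (-s.re) ≤ (d : ℝ) ^ (2 * ε + -(1 + ε)) :=
              Real.rpow_le_rpow_of_exponent_le hd1' (by linarith)
          _ = (d : ℝ) ^ (2 * ε) * (d : ℝ) ^ (-(1 + ε)) := Real.rpow_add hd0 _ _
          _ ≤ X ^ (2 * ε / 100) * (d : ℝ) ^ (-(1 + ε)) := by
              refine mul_le_mul_of_nonneg_right ?_ (Real.rpow_nonneg hd0.le _)
              calc (d : ℝ) ^ (2 * ε) ≤ (X ^ (1 / 100 : ℝ)) ^ (2 * ε) :=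
                    Real.rpow_le_rpow hd0.le hdX (by linarith)
                _ = X ^ (2 * ε / 100) := by rw [← Real.rpow_mul hX0.le]; ring_nf
      calc |lam d| * ‖(d : ℂ) ^ (-s)‖ * ‖f d‖
          ≤ 1 * (X ^ (2 * ε / 100) * (d : ℝ) ^ (-(1 + ε))) * R := by
            refine mul_le_mul ?_ (hf d hd') (norm_nonneg _) (by positivity)
            exact mul_le_mul (hSW.abs_le d) h1 (norm_nonneg _) (by norm_num)
        _ = _ := by ring
    calc ‖∑ d ∈ Icc 1 D, (lam d : ℂ) * (d : ℂ) ^ (-s) * f d‖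
        ≤ ∑ d ∈ Icc 1 D, X ^ (2 * ε / 100) * R * (d : ℝ) ^ (-(1 + ε)) := norm_sum_le_of_le _ hd1
      _ = X ^ (2 * ε / 100) * R * ∑ d ∈ Icc 1 D, (d : ℝ) ^ (-(1 + ε)) := by rw [Finset.mul_sum]
      _ ≤ X ^ (2 * ε / 100) * R * Z := by
          refine mul_le_mul_of_nonneg_left ?_ (by positivity)
          rw [hZ]
          exact hZsum.sum_le_tsum _ fun m _ => Real.rpow_nonneg (Nat.cast_nonneg m) _
      _ = _ := by ring
  rcases le_total |s.im| (X ^ (1 / 200 : ℝ)) with hsm | hlg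
  · -- small ordinates
    have hs1' : s ≠ 1 := fun h => him (by rw [h]; simp)
    have hs9 : 9 / 10 ≤ s.re := by linarith
    have hnorm : 1 + ‖s‖ ≤ 3 * X ^ (1 / 200 : ℝ) := by
      have h1 := Complex.norm_le_abs_re_add_abs_im s
      have h2 : |s.re| ≤ 1 := abs_le.2 ⟨by linarith, hs2⟩
      have h3 : 1 ≤ X ^ (1 / 200 : ℝ) := Real.one_le_rpow hX1.le (by norm_num)
      linarith
    set f : ℕ → ℂ := fun d => ∑ m ∈ Icc 1 ⌊X⌋₊, (trap X ((d : ℝ) * m) : ℂ) * (m : ℂ) ^ (-s) with hf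
    have hsplit : ∑ d ∈ Icc 1 D, (lam d : ℂ) * (d : ℂ) ^ (-s) * f d =
        Itr X s * ((∑ d ∈ Icc 1 D, lam d / d : ℝ) : ℂ) +
        ∑ d ∈ Icc 1 D, (lam d : ℂ) * (d : ℂ) ^ (-s) * (f d - (d : ℂ) ^ (s - 1) * Itr X s) := by
      push_cast
      rw [Finset.mul_sum, ← Finset.sum_add_distrib]
      refine Finset.sum_congr rfl fun d hd => ?_
      rw [mem_Icc] at hd
      have hd0 : (d : ℂ) ≠ 0 := by exact_mod_cast (by omega : d ≠ 0)
      have h1 : (d : ℂ) ^ (-s) * (d : ℂ) ^ (s - 1) = 1 / d := by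
        rw [← Complex.cpow_add _ _ hd0]
        have : -s + (s - 1) = -1 := by ring
        rw [this, Complex.cpow_neg_one, one_div]
      have h2 : (lam d : ℂ) * (d : ℂ) ^ (-s) * ((d : ℂ) ^ (s - 1) * Itr X s)
          = Itr X s * ((lam d : ℂ) / d) := by
        calc _ = (lam d : ℂ) * ((d : ℂ) ^ (-s) * (d : ℂ) ^ (s - 1)) * Itr X s := by ring
          _ = _ := by rw [h1]; ring
      rw [mul_sub, h2]; ring
    have herr := hdsum (C8 * (3 * X ^ (1 / 200 : ℝ)) * X ^ (-(1 / 100) : ℝ)) (by positivity)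
      (fun d => f d - (d : ℂ) ^ (s - 1) * Itr X s) (by
        intro d hd
        rw [mem_Icc] at hd
        have hdX : (d : ℝ) ≤ X ^ (1 / 100 : ℝ) := by
          have : (d : ℝ) ≤ D := by exact_mod_cast hd.2
          exact this.trans hDX
        refine (H8 X hX8 d hd.1 hdX s hs9 hs2 hs1').trans ?_
        refine mul_le_mul_of_nonneg_right ?_ (Real.rpow_nonneg hX0.le _)
        exact mul_le_mul_of_nonneg_left hnorm hC8.le)
    have hmain : ‖Itr X s * ((∑ d ∈ Icc 1 D, lam d / d : ℝ) : ℂ)‖ ≤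
        120 * C * X ^ ((1 - s.re) / 4) / (Real.log w * Real.log X * s.im ^ 2) := by
      rw [norm_mul, Complex.norm_real, Real.norm_eq_abs]
      calc ‖Itr X s‖ * |∑ d ∈ Icc 1 D, lam d / d|
          ≤ 120 * X ^ ((1 - s.re) / 4) / (Real.log X * s.im ^ 2) * (C / Real.log w) :=
            mul_le_mul (itr_bound hX1 hs2 him) hSW.mean (abs_nonneg _) (by positivity)
        _ = _ := by
            have : s.im ^ 2 ≠ 0 := by positivity
            field_simp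
    have hsmall : X ^ (2 * ε / 100) * Z * (C8 * (3 * X ^ (1 / 200 : ℝ)) * X ^ (-(1 / 100) : ℝ))
        ≤ X ^ (-c) := by
      have h1 : X ^ (2 * ε / 100) * X ^ (1 / 200 : ℝ) * X ^ (-(1 / 100) : ℝ) ≤ X ^ (-(2 * c)) := by
        rw [← Real.rpow_add hX0, ← Real.rpow_add hX0]
        exact Real.rpow_le_rpow_of_exponent_le hX1.le (by linarith)
      have h2 : 3 * C8 * Z ≤ X ^ c := by
        refine le_trans ?_ hKc
        rw [hK0]; nlinarith
      calc X ^ (2 * ε / 100) * Z * (C8 * (3 * X ^ (1 / 200 : ℝ)) * X ^ (-(1 / 100) : ℝ))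
          = (3 * C8 * Z) * (X ^ (2 * ε / 100) * X ^ (1 / 200 : ℝ) * X ^ (-(1 / 100) : ℝ)) := by ring
        _ ≤ X ^ c * X ^ (-(2 * c)) := mul_le_mul h2 h1 (by positivity) (by positivity)
        _ = X ^ (-c) := by rw [← Real.rpow_add hX0]; ring_nf
    calc ‖∑ d ∈ Icc 1 D, (lam d : ℂ) * (d : ℂ) ^ (-s) * f d‖
        = ‖Itr X s * ((∑ d ∈ Icc 1 D, lam d / d : ℝ) : ℂ) +
        ∑ d ∈ Icc 1 D, (lam d : ℂ) * (d : ℂ) ^ (-s) * (f d - (d : ℂ) ^ (s - 1) * Itr X s)‖ := by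
          rw [hsplit]
      _ ≤ _ := norm_add_le _ _
      _ ≤ 120 * C * X ^ ((1 - s.re) / 4) / (Real.log w * Real.log X * s.im ^ 2) + X ^ (-c) :=
          add_le_add hmain (herr.trans hsmall)
  · -- large ordinates
    have herr := hdsum (X ^ (-c9)) (by positivity)
      (fun d => ∑ m ∈ Icc 1 ⌊X⌋₊, (trap X ((d : ℝ) * m) : ℂ) * (m : ℂ) ^ (-s)) (by
        intro d hd
        rw [mem_Icc] at hd
        have hdX : (d : ℝ) ≤ X ^ (1 / 100 : ℝ) := by
          have : (d : ℝ) ≤ D := by exact_mod_cast hd.2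
          exact this.trans hDX
        exact H9 X hX9 d hd.1 hdX s (by linarith) hs2 hlg him2)
    have hsmall : X ^ (2 * ε / 100) * Z * X ^ (-c9) ≤ X ^ (-c) := by
      have h1 : X ^ (2 * ε / 100) * X ^ (-c9) ≤ X ^ (-(2 * c)) := by
        rw [← Real.rpow_add hX0]
        exact Real.rpow_le_rpow_of_exponent_le hX1.le (by linarith)
      have h2 : Z ≤ X ^ c := by
        refine le_trans ?_ hKc
        rw [hK0]; nlinarith
      calc X ^ (2 * ε / 100) * Z * X ^ (-c9) = Z * (X ^ (2 * ε / 100) * X ^ (-c9)) := by ring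
        _ ≤ X ^ c * X ^ (-(2 * c)) := mul_le_mul h2 h1 (by positivity) (by positivity)
        _ = X ^ (-c) := by rw [← Real.rpow_add hX0]; ring_nf
    have hmain0 : 0 ≤ 120 * C * X ^ ((1 - s.re) / 4) / (Real.log w * Real.log X * s.im ^ 2) := by
      positivity
    have := herr.trans hsmall
    linarith

end Pool.Agent.Helper7.KSZ
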