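import Pool.Agent.Helper7.KSZ.N8

/-!
Project KSZ, N9: the inner sum of the kernel for large ordinates.
-/

set_option autoImplicit false

open Finset MeasureTheory

namespace Pool.Agent.Helper7.KSZ

open Pool.Agent.Helper18.KSZ

/-- Abel summation -/
theorem abel_sum (w : ℕ → ℂ) (a : ℕ → ℂ) (M0 n : ℕ) (h : M0 ≤ n) :
    ∑ m ∈ Ioc M0 n, w m * a m = w n * (∑ m ∈ Ioc M0 n, a m)
      - ∑ k ∈ Ico M0 n, (w (k + 1) - w k) * (∑ m ∈ Ioc M0 k, a m) := by
  induction n, h using Nat.le_induction with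
  | base => simp
  | succ n hn ih =>
    rw [Finset.sum_Ioc_succ_top hn, Finset.sum_Ioc_succ_top hn, Finset.sum_Ico_succ_top hn, ih]
    ring

theorem innerLarge (h : ExpSum) : InnerLarge := by
  obtain ⟨c, ε, X0, hc, hε, H⟩ := h
  set c' := min c (3 / 400) / 2 with hc'
  have hc'pos : 0 < c' := by
    have : 0 < min c (3 / 400) := lt_min hc (by norm_num)
    linarith
  have hc1 : 2 * c' ≤ c := by
    have : min c (3 / 400) ≤ c := min_le_left _ _
    linarith
  have hc2 : 2 * c' ≤ 3 / 400 := by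
    have : min c (3 / 400) ≤ 3 / 400 := min_le_right _ _
    linarith
  refine ⟨c', min ε (1 / 2), max (max X0 2) ((42 : ℝ) ^ (1 / c')), hc'pos,
    lt_min hε (by norm_num), fun X hX d hd hdX s hs1 hs2 ht1 ht2 => ?_⟩
  have hXX0 : X0 ≤ X := (le_max_left _ _).trans ((le_max_left _ _).trans hX)
  have hX2 : 2 ≤ X := (le_max_right _ _).trans ((le_max_left _ _).trans hX)
  have hX42 : (42 : ℝ) ^ (1 / c') ≤ X := (le_max_right _ _).trans hX
  have hX1 : 1 < X := by linarith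
  have hX0 : 0 < X := by linarith
  set L := Real.log X with hLdef
  have hLpos : 0 < L := Real.log_pos hX1
  have hd0 : (0 : ℝ) < d := by exact_mod_cast hd
  have hre : 1 / 2 ≤ s.re := by
    have : min ε (1 / 2) ≤ 1 / 2 := min_le_right _ _
    linarith
  have hreε : 1 - ε ≤ s.re := by
    have : min ε (1 / 2) ≤ ε := min_le_left _ _
    linarith
  set M := ⌊X⌋₊ with hM
  set M0 := ⌈X ^ (3 / 200 : ℝ)⌉₊ with hM0
  have hM0X : X ^ (3 / 200 : ℝ) ≤ M0 := Nat.le_ceil _
  have hP1 : 1 ≤ X ^ (3 / 200 : ℝ) := Real.one_le_rpow hX1.le (by norm_num)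
  have hM01 : 1 ≤ M0 := by
    have : (1 : ℝ) ≤ M0 := hP1.trans hM0X
    exact_mod_cast this
  have hM0M : M0 ≤ M := by
    rw [hM, Nat.le_floor_iff hX0.le]
    have h1 : (M0 : ℝ) < X ^ (3 / 200 : ℝ) + 1 := Nat.ceil_lt_add_one (by positivity)
    -- X ^ (3/200) + 1 ≤ X since X ≥ 42 ^ (1 / c')
    have h42 : (42 : ℝ) ≤ X := by
      have h2 : (42 : ℝ) ^ (1 : ℝ) ≤ (42 : ℝ) ^ (1 / c') := by
        apply Real.rpow_le_rpow_of_exponent_le (by norm_num)
        rw [le_div_iff₀ hc'pos]; linarith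
      rw [Real.rpow_one] at h2
      exact h2.trans hX42
    have h3 : X ^ (3 / 200 : ℝ) ≤ X ^ (1 / 2 : ℝ) :=
      Real.rpow_le_rpow_of_exponent_le hX1.le (by norm_num)
    have h4 : X ^ (1 / 2 : ℝ) * X ^ (1 / 2 : ℝ) = X := by
      rw [← Real.rpow_add hX0]; norm_num
    have h5 : 2 ≤ X ^ (1 / 2 : ℝ) := by
      by_contra hcon
      push Not at hcon
      have h6 : 0 ≤ X ^ (1 / 2 : ℝ) := by positivity
      nlinarith
    nlinarith
  have hMX : (M : ℝ) ≤ X := Nat.floor_le hX0.le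
  -- vanishing for small m
  have hz : ∀ m : ℕ, 1 ≤ m → m < M0 → trap X ((d : ℝ) * m) = 0 := by
    intro m hm1 hm
    have hm0 : (0 : ℝ) < m := by exact_mod_cast hm1
    have hmX : (m : ℝ) ≤ X ^ (3 / 200 : ℝ) := (Nat.lt_ceil.1 hm).le
    apply trap_zero
    rw [← hLdef, div_le_iff₀ hLpos]
    have h1 : (d : ℝ) * m ≤ X ^ (1 / 40 : ℝ) := by
      calc (d : ℝ) * m ≤ X ^ (1 / 100 : ℝ) * X ^ (3 / 200 : ℝ) :=
            mul_le_mul hdX hmX hm0.le (Real.rpow_nonneg hX0.le _)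
        _ = X ^ (1 / 40 : ℝ) := by rw [← Real.rpow_add hX0]; norm_num
    calc Real.log ((d : ℝ) * m) ≤ Real.log (X ^ (1 / 40 : ℝ)) :=
          Real.log_le_log (by positivity) h1
      _ = 1 / 40 * L := by rw [Real.log_rpow hX0]
  set w : ℕ → ℂ := fun m => (trap X ((d : ℝ) * m) : ℂ) with hw
  set a : ℕ → ℂ := fun m => (m : ℂ) ^ (-s) with ha
  have hwle : ∀ m, ‖w m‖ ≤ 1 := by
    intro m
    simp only [hw]
    rw [Complex.norm_real, Real.norm_of_nonneg (trap_nonneg _ _)]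
    exact trap_le_one _ _
  -- splitting
  have hsplit : ∑ m ∈ Icc 1 M, w m * a m = w M0 * a M0 + ∑ m ∈ Ioc M0 M, w m * a m := by
    have e1 : Icc 1 M = Ico 1 M0 ∪ Icc M0 M := by
      ext k; simp only [mem_Icc, mem_union, mem_Ico]; omega
    have e2 : Icc M0 M = insert M0 (Ioc M0 M) := by
      ext k; simp only [mem_Icc, mem_insert, mem_Ioc]; omega
    rw [e1, Finset.sum_union, e2, Finset.sum_insert (by simp)]
    · have e3 : ∑ m ∈ Ico 1 M0, w m * a m = 0 := by
        refine Finset.sum_eq_zero fun m hm => ?_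
        rw [mem_Ico] at hm
        simp only [hw]
        rw [hz m hm.1 hm.2]; simp
      rw [e3, zero_add]
    · rw [Finset.disjoint_left]
      intro k hk hk'
      rw [mem_Ico] at hk
      rw [mem_Icc] at hk'
      omega
  -- partial sums
  have hA : ∀ k, M0 ≤ k → k ≤ M → ‖∑ m ∈ Ioc M0 k, a m‖ ≤ X ^ (-c) := by
    intro k hk1 hk2
    have h1 := H X hXX0 s.im ht1 ht2 M0 k hM0X hk1 ?_ s.re hreε hs2
    · rw [Complex.re_add_im] at h1
      exact h1
    · calc (k : ℝ) ≤ M := by exact_mod_cast hk2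
        _ ≤ X := hMX
        _ = X ^ (1 : ℝ) := (Real.rpow_one X).symm
        _ ≤ X ^ (4 : ℝ) := Real.rpow_le_rpow_of_exponent_le hX1.le (by norm_num)
  have hXc : 0 < X ^ (-c) := Real.rpow_pos_of_pos hX0 _
  have hmain : ‖∑ m ∈ Ioc M0 M, w m * a m‖ ≤ 41 * X ^ (-c) := by
    rw [abel_sum w a M0 M hM0M]
    refine (norm_sub_le _ _).trans ?_
    have h1 : ‖w M * ∑ m ∈ Ioc M0 M, a m‖ ≤ 1 * X ^ (-c) := by
      rw [norm_mul]
      exact mul_le_mul (hwle M) (hA M hM0M le_rfl) (norm_nonneg _) (by norm_num)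
    have h2 : ‖∑ k ∈ Ico M0 M, (w (k + 1) - w k) * ∑ m ∈ Ioc M0 k, a m‖ ≤ 40 * X ^ (-c) := by
      calc ‖∑ k ∈ Ico M0 M, (w (k + 1) - w k) * ∑ m ∈ Ioc M0 k, a m‖
          ≤ ∑ k ∈ Ico M0 M, 40 / L * (Real.log ((k + 1 : ℕ) : ℝ) - Real.log (k : ℝ)) * X ^ (-c) := by
            refine norm_sum_le_of_le _ fun k hk => ?_
            rw [mem_Ico] at hk
            have hk0 : (0 : ℝ) < k := by
              have : 1 ≤ k := hM01.trans hk.1
              exact_mod_cast this
            have hk1 : (0 : ℝ) < ((k + 1 : ℕ) : ℝ) := by positivity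
            rw [norm_mul]
            refine mul_le_mul ?_ (hA k hk.1 hk.2.le) (norm_nonneg _) ?_
            · simp only [hw]
              rw [← Complex.ofReal_sub, Complex.norm_real, Real.norm_eq_abs]
              refine (trap_lip hLpos).trans_eq ?_
              rw [Real.log_mul hd0.ne' hk1.ne', Real.log_mul hd0.ne' hk0.ne', ← hLdef]
              congr 1
              rw [add_sub_add_left_eq_sub, abs_of_nonneg]
              rw [sub_nonneg]
              exact Real.log_le_log hk0 (by push_cast; linarith)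
            · refine mul_nonneg (by positivity) ?_
              rw [sub_nonneg]
              exact Real.log_le_log hk0 (by push_cast; linarith)
        _ = 40 / L * (Real.log (M : ℝ) - Real.log (M0 : ℝ)) * X ^ (-c) := by
            rw [← Finset.sum_mul, ← Finset.mul_sum]
            congr 2
            exact Finset.sum_Ico_sub (fun k : ℕ => Real.log (k : ℝ)) hM0M
        _ ≤ 40 * X ^ (-c) := by
            refine mul_le_mul_of_nonneg_right ?_ hXc.le
            have h3 : Real.log (M : ℝ) ≤ L :=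
              Real.log_le_log (by exact_mod_cast hM01.trans hM0M) hMX
            have h4 : 0 ≤ Real.log (M0 : ℝ) := Real.log_nonneg (by exact_mod_cast hM01)
            calc 40 / L * (Real.log (M : ℝ) - Real.log (M0 : ℝ)) ≤ 40 / L * L :=
                  mul_le_mul_of_nonneg_left (by linarith) (by positivity)
              _ = 40 := by field_simp
    linarith
  have hfirst : ‖w M0 * a M0‖ ≤ X ^ (-(2 * c')) := by
    rw [norm_mul]
    have h1 : ‖a M0‖ ≤ X ^ (-(2 * c')) := by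
      have hM0pos : (0 : ℝ) < M0 := by exact_mod_cast hM01
      have h2 : a M0 = ((M0 : ℝ) : ℂ) ^ (-s) := by simp [ha]
      rw [h2, Complex.norm_cpow_eq_rpow_re_of_pos hM0pos, Complex.neg_re]
      calc (M0 : ℝ) ^ (-s.re) ≤ (M0 : ℝ) ^ (-(1 / 2) : ℝ) :=
            Real.rpow_le_rpow_of_exponent_le (by exact_mod_cast hM01) (by linarith)
        _ ≤ (X ^ (3 / 200 : ℝ)) ^ (-(1 / 2) : ℝ) :=
            Real.rpow_le_rpow_of_nonpos (by positivity) hM0X (by norm_num)
        _ = X ^ (-(3 / 400) : ℝ) := by rw [← Real.rpow_mul hX0.le]; norm_num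
        _ ≤ X ^ (-(2 * c')) := Real.rpow_le_rpow_of_exponent_le hX1.le (by linarith)
    calc ‖w M0‖ * ‖a M0‖ ≤ 1 * X ^ (-(2 * c')) :=
          mul_le_mul (hwle M0) h1 (norm_nonneg _) (by norm_num)
      _ = _ := one_mul _
  have hXc2 : X ^ (-c) ≤ X ^ (-(2 * c')) :=
    Real.rpow_le_rpow_of_exponent_le hX1.le (by linarith)
  have h42 : 42 * X ^ (-(2 * c')) ≤ X ^ (-c') := by
    have h1 : (42 : ℝ) ≤ X ^ c' := by
      calc (42 : ℝ) = ((42 : ℝ) ^ (1 / c')) ^ c' := by
            rw [← Real.rpow_mul (by norm_num), one_div, inv_mul_cancel₀ hc'pos.ne', Real.rpow_one]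
        _ ≤ X ^ c' := Real.rpow_le_rpow (by positivity) hX42 hc'pos.le
    calc 42 * X ^ (-(2 * c')) ≤ X ^ c' * X ^ (-(2 * c')) :=
          mul_le_mul_of_nonneg_right h1 (Real.rpow_nonneg hX0.le _)
      _ = X ^ (-c') := by rw [← Real.rpow_add hX0]; ring_nf
  have hgoal : ∑ m ∈ Icc 1 M, (trap X ((d : ℝ) * m) : ℂ) * (m : ℂ) ^ (-s)
      = w M0 * a M0 + ∑ m ∈ Ioc M0 M, w m * a m := hsplit
  rw [hgoal]
  calc ‖w M0 * a M0 + ∑ m ∈ Ioc M0 M, w m * a m‖
      ≤ ‖w M0 * a M0‖ + ‖∑ m ∈ Ioc M0 M, w m * a m‖ := norm_add_le _ _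
    _ ≤ X ^ (-(2 * c')) + 41 * X ^ (-c) := add_le_add hfirst hmain
    _ ≤ 42 * X ^ (-(2 * c')) := by linarith
    _ ≤ X ^ (-c') := h42

end Pool.Agent.Helper7.KSZ
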