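import Pool.Agent.Helper18.KSZ.NSpec

/-!
Project KSZ, N8: the inner sum of the kernel for small ordinates.
-/

set_option autoImplicit false

open Finset MeasureTheory

namespace Pool.Agent.Helper7.KSZ

open Pool.Agent.Helper18.KSZ

/-! ### the trapezoid -/

theorem trap_decomp (v : ℝ) : max 0 (min 1 (min (40 * v - 1) (5 - 20 * v))) =
    40 * max 0 (v - 1 / 40) - 40 * max 0 (v - 1 / 20) - 20 * max 0 (v - 1 / 5)
      + 20 * max 0 (v - 1 / 4) := by
  rcases le_total v (1 / 40) with h1 | h1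
  · rw [max_eq_left (a := (0:ℝ)) (b := v - 1 / 40) (by linarith),
      max_eq_left (a := (0:ℝ)) (b := v - 1 / 20) (by linarith),
      max_eq_left (a := (0:ℝ)) (b := v - 1 / 5) (by linarith),
      max_eq_left (a := (0:ℝ)) (b := v - 1 / 4) (by linarith),
      max_eq_left]
    · ring
    · exact (min_le_right _ _).trans ((min_le_left _ _).trans (by linarith))
  rw [max_eq_right (a := (0:ℝ)) (b := v - 1 / 40) (by linarith)]
  rcases le_total v (1 / 20) with h2 | h2
  · rw [max_eq_left (a := (0:ℝ)) (b := v - 1 / 20) (by linarith),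
      max_eq_left (a := (0:ℝ)) (b := v - 1 / 5) (by linarith),
      max_eq_left (a := (0:ℝ)) (b := v - 1 / 4) (by linarith),
      min_eq_left (a := 40 * v - 1) (by linarith), min_eq_right (by linarith),
      max_eq_right (by linarith)]
    ring
  rw [max_eq_right (a := (0:ℝ)) (b := v - 1 / 20) (by linarith)]
  rcases le_total v (1 / 5) with h3 | h3
  · rw [max_eq_left (a := (0:ℝ)) (b := v - 1 / 5) (by linarith),
      max_eq_left (a := (0:ℝ)) (b := v - 1 / 4) (by linarith),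
      min_eq_left (a := (1:ℝ)), max_eq_right (by norm_num)]
    · ring
    · exact le_min (by linarith) (by linarith)
  rw [max_eq_right (a := (0:ℝ)) (b := v - 1 / 5) (by linarith)]
  rcases le_total v (1 / 4) with h4 | h4
  · rw [max_eq_left (a := (0:ℝ)) (b := v - 1 / 4) (by linarith),
      min_eq_right (a := 40 * v - 1) (by linarith), min_eq_right (by linarith),
      max_eq_right (by linarith)]
    ring
  rw [max_eq_right (a := (0:ℝ)) (b := v - 1 / 4) (by linarith), max_eq_left]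
  · ring
  · exact (min_le_right _ _).trans ((min_le_right _ _).trans (by linarith))

theorem trap_nonneg (X y : ℝ) : 0 ≤ trap X y := le_max_left _ _

theorem trap_le_one (X y : ℝ) : trap X y ≤ 1 :=
  max_le (by norm_num) (min_le_left _ _)

theorem trap_zero {X y : ℝ} (h : Real.log y / Real.log X ≤ 1 / 40) : trap X y = 0 := by
  unfold trap
  rw [max_eq_left]
  exact (min_le_right _ _).trans ((min_le_left _ _).trans (by linarith))

theorem trap_zero' {X y : ℝ} (h : 1 / 4 ≤ Real.log y / Real.log X) : trap X y = 0 := by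
  unfold trap
  rw [max_eq_left]
  exact (min_le_right _ _).trans ((min_le_right _ _).trans (by linarith))

theorem trap_lip {X a b : ℝ} (hL : 0 < Real.log X) :
    |trap X a - trap X b| ≤ 40 / Real.log X * |Real.log a - Real.log b| := by
  have key : ∀ v w : ℝ, |max 0 (min 1 (min (40 * v - 1) (5 - 20 * v))) -
      max 0 (min 1 (min (40 * w - 1) (5 - 20 * w)))| ≤ 40 * |v - w| := by
    intro v w
    have h1 := abs_max_sub_max_le_max (0 : ℝ) (min 1 (min (40 * v - 1) (5 - 20 * v))) 0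
      (min 1 (min (40 * w - 1) (5 - 20 * w)))
    have h2 := abs_min_sub_min_le_max (1 : ℝ) (min (40 * v - 1) (5 - 20 * v)) 1
      (min (40 * w - 1) (5 - 20 * w))
    have h3 := abs_min_sub_min_le_max (40 * v - 1) (5 - 20 * v) (40 * w - 1) (5 - 20 * w)
    rw [sub_self, abs_zero] at h1 h2
    have h0 : 0 ≤ 40 * |v - w| := by positivity
    have h4 : |40 * v - 1 - (40 * w - 1)| ≤ 40 * |v - w| := by
      have : 40 * v - 1 - (40 * w - 1) = 40 * (v - w) := by ring
      rw [this, abs_mul, abs_of_pos (by norm_num : (0:ℝ) < 40)]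
    have h5 : |5 - 20 * v - (5 - 20 * w)| ≤ 40 * |v - w| := by
      have : 5 - 20 * v - (5 - 20 * w) = -20 * (v - w) := by ring
      rw [this, abs_mul]
      have h6 : |(-20 : ℝ)| = 20 := by norm_num
      rw [h6]
      nlinarith [abs_nonneg (v - w)]
    exact h1.trans (max_le h0 (h2.trans (max_le h0 (h3.trans (max_le h4 h5)))))
  have h := key (Real.log a / Real.log X) (Real.log b / Real.log X)
  refine h.trans_eq ?_
  rw [← sub_div, abs_div, abs_of_pos hL]
  ring

/-! ### powers -/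

theorem cpow_sub_le {s : ℂ} (hs : s ≠ 0) (hre : 0 ≤ s.re) {m y : ℝ} (hm : 0 < m) (hy : m ≤ y) :
    ‖(y : ℂ) ^ (-s) - (m : ℂ) ^ (-s)‖ ≤ ‖s‖ * m ^ (-s.re - 1) * (y - m) := by
  have h1 : ∀ x ∈ Set.Icc m y, HasDerivWithinAt (fun x : ℝ => (x : ℂ) ^ (-s))
      (-s * (x : ℂ) ^ (-s - 1)) (Set.Icc m y) x := fun x hx =>
    (hasDerivAt_ofReal_cpow_const (lt_of_lt_of_le hm hx.1).ne' (neg_ne_zero.2 hs)).hasDerivWithinAt
  have h2 : ∀ x ∈ Set.Icc m y, ‖-s * (x : ℂ) ^ (-s - 1)‖ ≤ ‖s‖ * m ^ (-s.re - 1) := by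
    intro x hx
    have hx0 : 0 < x := lt_of_lt_of_le hm hx.1
    rw [norm_mul, norm_neg, Complex.norm_cpow_eq_rpow_re_of_pos hx0]
    refine mul_le_mul_of_nonneg_left ?_ (norm_nonneg _)
    have e : (-s - 1).re = -s.re - 1 := by simp
    rw [e]
    exact Real.rpow_le_rpow_of_nonpos hm hx.1 (by linarith)
  have h3 := (convex_Icc m y).norm_image_sub_le_of_norm_hasDerivWithin_le h1 h2
    (Set.left_mem_Icc.2 hy) (Set.right_mem_Icc.2 hy)
  rwa [Real.norm_of_nonneg (sub_nonneg.2 hy)] at h3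

/-! ### the integral of one piece -/

theorem piece {L d a Y : ℝ} {s : ℂ} (hL : 0 < L) (hd : 0 < d) (hs : s ≠ 1)
    (h1 : 1 ≤ Real.exp (a * L) / d) (h2 : Real.exp (a * L) / d ≤ Y) :
    ∫ y in (1 : ℝ)..Y, ((max 0 (Real.log (d * y) / L - a) : ℝ) : ℂ) * (y : ℂ) ^ (-s) =
      ((Real.log (d * Y) / L - a : ℝ) : ℂ) * ((Y : ℂ) ^ (1 - s) / (1 - s))
        - (Y : ℂ) ^ (1 - s) / ((L : ℂ) * (1 - s) ^ 2)
        + ((Real.exp (a * L) / d : ℝ) : ℂ) ^ (1 - s) / ((L : ℂ) * (1 - s) ^ 2) := by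
  set y0 := Real.exp (a * L) / d with hy0
  have hy0pos : 0 < y0 := by positivity
  have hw : (1 : ℂ) - s ≠ 0 := sub_ne_zero.2 (Ne.symm hs)
  have hLc : (L : ℂ) ≠ 0 := by exact_mod_cast hL.ne'
  have hcont : ContinuousOn (fun y : ℝ => ((max 0 (Real.log (d * y) / L - a) : ℝ) : ℂ) *
      (y : ℂ) ^ (-s)) (Set.Ioi 0) := by
    intro y hy
    have hy' : (0 : ℝ) < y := hy
    have c1 : ContinuousAt (fun y : ℝ => Real.log (d * y)) y :=
      (Real.continuousAt_log (by positivity)).comp (by fun_prop : ContinuousAt (fun y : ℝ => d * y) y)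
    have c2 : ContinuousAt (fun y : ℝ => max 0 (Real.log (d * y) / L - a)) y :=
      continuousAt_const.max ((c1.div_const L).sub continuousAt_const)
    have c3 : ContinuousAt (fun y : ℝ => ((max 0 (Real.log (d * y) / L - a) : ℝ) : ℂ)) y :=
      Complex.continuous_ofReal.continuousAt.comp c2
    exact (c3.mul (Complex.continuousAt_ofReal_cpow_const _ _ (Or.inr hy'.ne'))).continuousWithinAt
  have i1 : IntervalIntegrable (fun y : ℝ => ((max 0 (Real.log (d * y) / L - a) : ℝ) : ℂ) *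
      (y : ℂ) ^ (-s)) volume 1 y0 := by
    apply ContinuousOn.intervalIntegrable
    apply hcont.mono
    intro y hy
    rw [Set.uIcc_of_le h1] at hy
    exact lt_of_lt_of_le one_pos hy.1
  have i2 : IntervalIntegrable (fun y : ℝ => ((max 0 (Real.log (d * y) / L - a) : ℝ) : ℂ) *
      (y : ℂ) ^ (-s)) volume y0 Y := by
    apply ContinuousOn.intervalIntegrable
    apply hcont.mono
    intro y hy
    rw [Set.uIcc_of_le h2] at hy
    exact lt_of_lt_of_le hy0pos hy.1
  rw [← intervalIntegral.integral_add_adjacent_intervals i1 i2]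
  have hlog0 : Real.log (d * y0) = a * L := by
    rw [hy0, mul_div_cancel₀ _ hd.ne', Real.log_exp]
  have e1 : ∫ y in (1 : ℝ)..y0, ((max 0 (Real.log (d * y) / L - a) : ℝ) : ℂ) * (y : ℂ) ^ (-s)
      = 0 := by
    rw [intervalIntegral.integral_congr (g := fun _ => (0 : ℂ))]
    · simp
    · intro y hy
      rw [Set.uIcc_of_le h1] at hy
      have hypos : 0 < y := lt_of_lt_of_le one_pos hy.1
      have h3 : Real.log (d * y) ≤ a * L := by
        rw [← hlog0]
        exact Real.log_le_log (by positivity) (mul_le_mul_of_nonneg_left hy.2 hd.le)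
      have h4 : Real.log (d * y) / L - a ≤ 0 := by
        rw [sub_nonpos, div_le_iff₀ hL]; exact h3
      simp only
      rw [max_eq_left h4]
      simp
  have e2 : ∫ y in y0..Y, ((max 0 (Real.log (d * y) / L - a) : ℝ) : ℂ) * (y : ℂ) ^ (-s)
      = (((Real.log (d * Y) / L - a : ℝ) : ℂ) * ((Y : ℂ) ^ (1 - s) / (1 - s))
        - (Y : ℂ) ^ (1 - s) / ((L : ℂ) * (1 - s) ^ 2))
        - (((Real.log (d * y0) / L - a : ℝ) : ℂ) * ((y0 : ℂ) ^ (1 - s) / (1 - s))
        - (y0 : ℂ) ^ (1 - s) / ((L : ℂ) * (1 - s) ^ 2)) := by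
    refine intervalIntegral.integral_eq_sub_of_hasDerivAt (f := fun y : ℝ =>
      ((Real.log (d * y) / L - a : ℝ) : ℂ) * ((y : ℂ) ^ (1 - s) / (1 - s))
        - (y : ℂ) ^ (1 - s) / ((L : ℂ) * (1 - s) ^ 2)) ?_ i2
    intro y hy
    rw [Set.uIcc_of_le h2] at hy
    have hypos : 0 < y := lt_of_lt_of_le hy0pos hy.1
    have hyc : (y : ℂ) ≠ 0 := by exact_mod_cast hypos.ne'
    have d1 : HasDerivAt (fun y : ℝ => Real.log (d * y) / L - a) (1 / y / L) y := by
      have h5 : HasDerivAt (fun y : ℝ => d * y) d y := by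
        simpa using (hasDerivAt_id y).const_mul d
      have h6 := h5.log (by positivity)
      have h7 := (h6.div_const L).sub_const a
      refine h7.congr_deriv ?_
      field_simp
    have d2 : HasDerivAt (fun y : ℝ => ((Real.log (d * y) / L - a : ℝ) : ℂ))
        (((1 / y / L : ℝ)) : ℂ) y := d1.ofReal_comp
    have d3 : HasDerivAt (fun y : ℝ => (y : ℂ) ^ (1 - s)) ((1 - s) * (y : ℂ) ^ (-s)) y := by
      have h8 := hasDerivAt_ofReal_cpow_const hypos.ne' hw
      have h9 : (1 : ℂ) - s - 1 = -s := by ring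
      rwa [h9] at h8
    have d4 := (d2.mul (d3.div_const (1 - s))).sub (d3.div_const ((L : ℂ) * (1 - s) ^ 2))
    refine d4.congr_deriv ?_
    have h10 : (y : ℂ) ^ (1 - s) = (y : ℂ) * (y : ℂ) ^ (-s) := by
      rw [sub_eq_add_neg, Complex.cpow_add _ _ hyc, Complex.cpow_one]
    have h11 : 0 ≤ Real.log (d * y) / L - a := by
      rw [sub_nonneg, le_div_iff₀ hL, ← hlog0]
      exact Real.log_le_log (by positivity) (mul_le_mul_of_nonneg_left hy.1 hd.le)
    rw [max_eq_right h11, h10]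
    push_cast
    field_simp
    ring
  rw [e1, e2, hlog0]
  have e3 : a * L / L - a = 0 := by field_simp; ring
  rw [e3]
  push_cast
  ring

/-! ### the full integral -/

theorem rpos_cpow {x : ℝ} (hx : 0 < x) (z : ℂ) :
    (x : ℂ) ^ z = Complex.exp ((Real.log x : ℂ) * z) := by
  rw [Complex.cpow_def_of_ne_zero (by exact_mod_cast hx.ne'), ← Complex.ofReal_log hx.le]

theorem integral_trap {X : ℝ} {d : ℕ} {s : ℂ} (hX : 1 < X) (hd : 1 ≤ d)
    (hdX : (d : ℝ) ≤ X ^ (1 / 100 : ℝ)) (hs : s ≠ 1) {Y : ℝ} (hY : X ≤ Y) :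
    ∫ y in (1 : ℝ)..Y, (trap X ((d : ℝ) * y) : ℂ) * (y : ℂ) ^ (-s) =
      (d : ℂ) ^ (s - 1) * Itr X s := by
  have hX0 : 0 < X := by linarith
  set L := Real.log X with hLdef
  have hL : 0 < L := Real.log_pos hX
  have hd0 : (0 : ℝ) < d := by exact_mod_cast hd
  have hd1 : (1 : ℝ) ≤ d := by exact_mod_cast hd
  have hexp : ∀ a : ℝ, Real.exp (a * L) = X ^ a := by
    intro a; rw [Real.rpow_def_of_pos hX0, mul_comm]
  have hpow : ∀ a : ℝ, 1 / 100 ≤ a → a ≤ 1 → 1 ≤ Real.exp (a * L) / d ∧ Real.exp (a * L) / d ≤ Y := by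
    intro a h1 h2
    rw [hexp]
    constructor
    · rw [one_le_div hd0]
      exact hdX.trans (Real.rpow_le_rpow_of_exponent_le hX.le h1)
    · rw [div_le_iff₀ hd0]
      calc X ^ a ≤ X ^ (1 : ℝ) := Real.rpow_le_rpow_of_exponent_le hX.le h2
        _ = X := Real.rpow_one X
        _ ≤ Y := hY
        _ = Y * 1 := (mul_one Y).symm
        _ ≤ Y * d := mul_le_mul_of_nonneg_left hd1 (by linarith)
  have hYpos : 0 < Y := by linarith
  have hY1 : 1 ≤ Y := by linarith
  have hp : ∀ a : ℝ, 1 / 100 ≤ a → a ≤ 1 → _ := fun a h1 h2 =>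
    piece (L := L) (d := (d : ℝ)) (a := a) (Y := Y) (s := s) hL hd0 hs (hpow a h1 h2).1 (hpow a h1 h2).2
  have hint : ∀ a : ℝ, IntervalIntegrable (fun y : ℝ =>
      ((max 0 (Real.log ((d : ℝ) * y) / L - a) : ℝ) : ℂ) * (y : ℂ) ^ (-s)) volume 1 Y := by
    intro a
    apply ContinuousOn.intervalIntegrable
    intro y hy
    rw [Set.uIcc_of_le hY1] at hy
    have hy' : (0 : ℝ) < y := lt_of_lt_of_le one_pos hy.1
    have c1 : ContinuousAt (fun y : ℝ => Real.log ((d : ℝ) * y)) y :=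
      (Real.continuousAt_log (by positivity)).comp
        (by fun_prop : ContinuousAt (fun y : ℝ => (d : ℝ) * y) y)
    have c2 : ContinuousAt (fun y : ℝ => max 0 (Real.log ((d : ℝ) * y) / L - a)) y :=
      continuousAt_const.max ((c1.div_const L).sub continuousAt_const)
    have c3 : ContinuousAt (fun y : ℝ => ((max 0 (Real.log ((d : ℝ) * y) / L - a) : ℝ) : ℂ)) y :=
      Complex.continuous_ofReal.continuousAt.comp c2
    exact (c3.mul (Complex.continuousAt_ofReal_cpow_const _ _ (Or.inr hy'.ne'))).continuousWithinAt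
  have e0 : ∀ y : ℝ, (trap X ((d : ℝ) * y) : ℂ) * (y : ℂ) ^ (-s) =
      40 * (((max 0 (Real.log ((d : ℝ) * y) / L - 1 / 40) : ℝ) : ℂ) * (y : ℂ) ^ (-s))
      - 40 * (((max 0 (Real.log ((d : ℝ) * y) / L - 1 / 20) : ℝ) : ℂ) * (y : ℂ) ^ (-s))
      - 20 * (((max 0 (Real.log ((d : ℝ) * y) / L - 1 / 5) : ℝ) : ℂ) * (y : ℂ) ^ (-s))
      + 20 * (((max 0 (Real.log ((d : ℝ) * y) / L - 1 / 4) : ℝ) : ℂ) * (y : ℂ) ^ (-s)) := by
    intro y
    unfold trap
    rw [trap_decomp]
    push_cast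
    ring
  simp only [e0]
  rw [intervalIntegral.integral_add ((((hint _).const_mul _).sub ((hint _).const_mul _)).sub
      ((hint _).const_mul _)) ((hint _).const_mul _),
    intervalIntegral.integral_sub (((hint _).const_mul _).sub ((hint _).const_mul _))
      ((hint _).const_mul _),
    intervalIntegral.integral_sub ((hint _).const_mul _) ((hint _).const_mul _),
    intervalIntegral.integral_const_mul, intervalIntegral.integral_const_mul,
    intervalIntegral.integral_const_mul, intervalIntegral.integral_const_mul,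
    hp (1 / 40) (by norm_num) (by norm_num), hp (1 / 20) (by norm_num) (by norm_num),
    hp (1 / 5) (by norm_num) (by norm_num), hp (1 / 4) (by norm_num) (by norm_num)]
  have hw : (1 : ℂ) - s ≠ 0 := sub_ne_zero.2 (Ne.symm hs)
  have hLc : (L : ℂ) ≠ 0 := by exact_mod_cast hL.ne'
  have hXc : (X : ℂ) ≠ 0 := by exact_mod_cast hX0.ne'
  have hdc : (d : ℂ) ≠ 0 := by exact_mod_cast hd0.ne'
  have hq : ∀ a : ℝ, ((Real.exp (a * L) / d : ℝ) : ℂ) ^ (1 - s)
      = (d : ℂ) ^ (s - 1) * (X : ℂ) ^ ((a : ℂ) * (1 - s)) := by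
    intro a
    rw [hexp]
    have h1 : ((X ^ a / (d : ℝ) : ℝ) : ℂ) = ((X ^ a : ℝ) : ℂ) * (((d : ℝ)⁻¹ : ℝ) : ℂ) := by
      push_cast; rw [div_eq_mul_inv]
    rw [h1, Complex.mul_cpow_ofReal_nonneg (Real.rpow_nonneg hX0.le _) (by positivity)]
    have h2 : (((X ^ a : ℝ)) : ℂ) ^ (1 - s) = (X : ℂ) ^ ((a : ℂ) * (1 - s)) := by
      rw [rpos_cpow (Real.rpow_pos_of_pos hX0 _), rpos_cpow hX0, Real.log_rpow hX0]
      push_cast
      ring_nf
    have h3 : ((((d : ℝ)⁻¹ : ℝ)) : ℂ) ^ (1 - s) = (d : ℂ) ^ (s - 1) := by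
      have h4 : (d : ℂ) = ((d : ℝ) : ℂ) := by push_cast; rfl
      rw [h4, rpos_cpow (inv_pos.2 hd0), rpos_cpow hd0, Real.log_inv]
      push_cast
      ring_nf
    rw [h2, h3]; ring
  rw [hq, hq, hq, hq]
  unfold Itr
  rw [← hLdef]
  have c1 : (((1 / 40 : ℝ)) : ℂ) * (1 - s) = (1 - s) / 40 := by push_cast; ring
  have c2 : (((1 / 20 : ℝ)) : ℂ) * (1 - s) = (1 - s) / 20 := by push_cast; ring
  have c3 : (((1 / 5 : ℝ)) : ℂ) * (1 - s) = (1 - s) / 5 := by push_cast; ring
  have c4 : (((1 / 4 : ℝ)) : ℂ) * (1 - s) = (1 - s) / 4 := by push_cast; ring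
  rw [c1, c2, c3, c4]
  push_cast
  field_simp
  ring

/-! ### the comparison of the sum and the integral -/

theorem innerSmall : InnerSmall := by
  obtain ⟨B, hB⟩ : ∃ B : ℝ, B = ∑' m : ℕ, (m : ℝ) ^ (-(6 / 5) : ℝ) := ⟨_, rfl⟩
  have hsum : Summable fun m : ℕ => (m : ℝ) ^ (-(6 / 5) : ℝ) :=
    Real.summable_nat_rpow.2 (by norm_num)
  have hB0 : 0 ≤ B := hB ▸ tsum_nonneg fun m => Real.rpow_nonneg (Nat.cast_nonneg m) _
  refine ⟨80 * B + 1, 2 ^ 100, by positivity, fun X hX d hd hdX s hs1 hs2 hs => ?_⟩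
  have hX1 : 1 < X := lt_of_lt_of_le (by norm_num) hX
  have hX0 : 0 < X := by linarith
  set L := Real.log X with hLdef
  have hL : 1 ≤ L := by
    have h1 : Real.log (2 ^ 100) ≤ L := Real.log_le_log (by positivity) hX
    rw [Real.log_pow] at h1
    have h2 := Real.log_two_gt_d9
    push_cast at h1
    linarith
  have hLpos : 0 < L := by linarith
  have hd0 : (0 : ℝ) < d := by exact_mod_cast hd
  have hs0 : s ≠ 0 := fun h => by rw [h] at hs1; norm_num at hs1
  set M := ⌊X⌋₊ with hM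
  have hMX : X ≤ (M : ℝ) + 1 := (Nat.lt_floor_add_one X).le
  -- the summand as a function
  set g : ℝ → ℂ := fun y => (trap X ((d : ℝ) * y) : ℂ) * (y : ℂ) ^ (-s) with hg
  have hI : ∫ y in (1 : ℝ)..((M + 1 : ℕ) : ℝ), g y = (d : ℂ) ^ (s - 1) * Itr X s :=
    integral_trap hX1 hd hdX hs (by push_cast; exact hMX)
  have hgc : ContinuousOn g (Set.Ici 1) := by
    intro y hy
    have hy' : (0 : ℝ) < y := lt_of_lt_of_le one_pos hy
    have c1 : ContinuousAt (fun y : ℝ => Real.log ((d : ℝ) * y)) y :=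
      (Real.continuousAt_log (by positivity)).comp
        (by fun_prop : ContinuousAt (fun y : ℝ => (d : ℝ) * y) y)
    have c2 : ContinuousAt (fun y : ℝ => trap X ((d : ℝ) * y)) y := by
      unfold trap
      exact continuousAt_const.max (continuousAt_const.min
        (((continuousAt_const.mul (c1.div_const _)).sub continuousAt_const).min
          (continuousAt_const.sub (continuousAt_const.mul (c1.div_const _)))))
    have c3 : ContinuousAt (fun y : ℝ => ((trap X ((d : ℝ) * y) : ℝ) : ℂ)) y :=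
      Complex.continuous_ofReal.continuousAt.comp c2
    exact (c3.mul (Complex.continuousAt_ofReal_cpow_const _ _ (Or.inr hy'.ne'))).continuousWithinAt
  have hint : ∀ k ∈ Set.Ico 1 (M + 1), IntervalIntegrable g volume ((k : ℕ) : ℝ) ((k + 1 : ℕ) : ℝ) := by
    intro k hk
    apply ContinuousOn.intervalIntegrable
    apply hgc.mono
    intro y hy
    rw [Set.uIcc_of_le (by push_cast; linarith)] at hy
    have h1 : (1 : ℝ) ≤ k := by exact_mod_cast hk.1
    exact h1.trans hy.1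
  have hsplit := intervalIntegral.sum_integral_adjacent_intervals_Ico (f := g) (μ := volume)
    (a := fun k : ℕ => (k : ℝ)) (m := 1) (n := M + 1) (by omega) hint
  simp only [Nat.cast_one] at hsplit
  rw [hI] at hsplit
  have hIcc : Icc 1 M = Ico 1 (M + 1) := by
    ext k; simp only [mem_Icc, mem_Ico]; omega
  rw [← hsplit, hIcc, ← Finset.sum_sub_distrib]
  -- one term
  have hterm : ∀ m ∈ Ico 1 (M + 1), ‖(trap X ((d : ℝ) * m) : ℂ) * (m : ℂ) ^ (-s) -
      ∫ y in ((m : ℕ) : ℝ)..((m + 1 : ℕ) : ℝ), g y‖ ≤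
      80 * (1 + ‖s‖) * X ^ (-(1 / 100) : ℝ) * (m : ℝ) ^ (-(6 / 5) : ℝ) := by
    intro m hm
    have hm1 : 1 ≤ m := (mem_Ico.1 hm).1
    have hm0 : (0 : ℝ) < m := by exact_mod_cast hm1
    have hm1' : (1 : ℝ) ≤ m := by exact_mod_cast hm1
    have e1 : (trap X ((d : ℝ) * m) : ℂ) * (m : ℂ) ^ (-s) -
        ∫ y in ((m : ℕ) : ℝ)..((m + 1 : ℕ) : ℝ), g y
        = ∫ y in ((m : ℕ) : ℝ)..((m + 1 : ℕ) : ℝ), (g m - g y) := by
      rw [intervalIntegral.integral_sub intervalIntegrable_const (hint m (by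
        have := mem_Ico.1 hm; exact ⟨this.1, this.2⟩)), intervalIntegral.integral_const]
      simp [hg]
    rw [e1]
    have hbound : ∀ y ∈ Set.uIoc ((m : ℕ) : ℝ) ((m + 1 : ℕ) : ℝ), ‖g m - g y‖ ≤
        80 * (1 + ‖s‖) * X ^ (-(1 / 100) : ℝ) * (m : ℝ) ^ (-(6 / 5) : ℝ) := by
      intro y hy
      rw [Set.uIoc_of_le (by push_cast; linarith)] at hy
      have hym : (m : ℝ) ≤ y := hy.1.le
      have hym1 : y ≤ m + 1 := by have := hy.2; push_cast at this; exact this
      have hy0 : 0 < y := by linarith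
      have hRnn : 0 ≤ 80 * (1 + ‖s‖) * X ^ (-(1 / 100) : ℝ) * (m : ℝ) ^ (-(6 / 5) : ℝ) := by
        positivity
      -- small m: everything vanishes
      rcases le_or_gt ((m : ℝ) + 1) (X ^ (3 / 200 : ℝ)) with hsm | hbig
      · have hz : ∀ u : ℝ, 0 < u → u ≤ m + 1 → trap X ((d : ℝ) * u) = 0 := by
          intro u hu0 hu
          apply trap_zero
          rw [← hLdef, div_le_iff₀ hLpos]
          have h1 : (d : ℝ) * u ≤ X ^ (1 / 40 : ℝ) := by
            calc (d : ℝ) * u ≤ X ^ (1 / 100 : ℝ) * X ^ (3 / 200 : ℝ) :=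
                  mul_le_mul hdX (hu.trans hsm) hu0.le (Real.rpow_nonneg hX0.le _)
              _ = X ^ (1 / 40 : ℝ) := by rw [← Real.rpow_add hX0]; norm_num
          calc Real.log ((d : ℝ) * u) ≤ Real.log (X ^ (1 / 40 : ℝ)) :=
                Real.log_le_log (by positivity) h1
            _ = 1 / 40 * L := by rw [Real.log_rpow hX0]
        have h1 : g m = 0 := by
          simp only [hg]; rw [hz m hm0 (by linarith)]; simp
        have h2 : g y = 0 := by
          simp only [hg]; rw [hz y hy0 hym1]; simp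
        rw [h1, h2, sub_zero, norm_zero]
        exact hRnn
      · -- large m
        have hP : X ^ (3 / 200 : ℝ) ≤ 2 * m := by
          have h2 : (2 : ℝ) ≤ X ^ (3 / 200 : ℝ) := by
            calc (2 : ℝ) = 2 ^ (1 : ℝ) := (Real.rpow_one 2).symm
              _ ≤ 2 ^ (3 / 2 : ℝ) := Real.rpow_le_rpow_of_exponent_le (by norm_num) (by norm_num)
              _ = ((2 : ℝ) ^ (100 : ℕ)) ^ (3 / 200 : ℝ) := by
                rw [← Real.rpow_natCast, ← Real.rpow_mul (by norm_num)]; norm_num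
              _ ≤ X ^ (3 / 200 : ℝ) := Real.rpow_le_rpow (by positivity) hX (by norm_num)
          linarith
        have hmpow : (m : ℝ) ^ (-s.re - 1) ≤ 2 * X ^ (-(1 / 100) : ℝ) * (m : ℝ) ^ (-(6 / 5) : ℝ) := by
          have h1 : (m : ℝ) ^ (-s.re - 1) ≤ (m : ℝ) ^ (-(19 / 10) : ℝ) :=
            Real.rpow_le_rpow_of_exponent_le hm1' (by linarith)
          have h2 : (m : ℝ) ^ (-(19 / 10) : ℝ) = (m : ℝ) ^ (-(6 / 5) : ℝ) * (m : ℝ) ^ (-(7 / 10) : ℝ) := by
            rw [← Real.rpow_add hm0]; norm_num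
          have h3 : (m : ℝ) ^ (-(7 / 10) : ℝ) ≤ (X ^ (3 / 200 : ℝ) / 2) ^ (-(7 / 10) : ℝ) :=
            Real.rpow_le_rpow_of_nonpos (by positivity) (by linarith) (by norm_num)
          have h4 : (X ^ (3 / 200 : ℝ) / 2) ^ (-(7 / 10) : ℝ)
              ≤ 2 * X ^ (-(1 / 100) : ℝ) := by
            rw [Real.div_rpow (by positivity) (by norm_num), ← Real.rpow_mul hX0.le,
              div_eq_mul_inv, ← Real.rpow_neg (by norm_num), mul_comm]
            refine mul_le_mul ?_ ?_ (Real.rpow_nonneg hX0.le _) (by norm_num)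
            · calc (2 : ℝ) ^ (-(-(7 / 10)) : ℝ) ≤ 2 ^ (1 : ℝ) :=
                  Real.rpow_le_rpow_of_exponent_le (by norm_num) (by norm_num)
                _ = 2 := Real.rpow_one 2
            · exact Real.rpow_le_rpow_of_exponent_le hX1.le (by norm_num)
          calc (m : ℝ) ^ (-s.re - 1) ≤ (m : ℝ) ^ (-(6 / 5) : ℝ) * (m : ℝ) ^ (-(7 / 10) : ℝ) := by
                rw [← h2]; exact h1
            _ ≤ (m : ℝ) ^ (-(6 / 5) : ℝ) * (2 * X ^ (-(1 / 100) : ℝ)) :=
                mul_le_mul_of_nonneg_left (h3.trans h4) (Real.rpow_nonneg hm0.le _)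
            _ = _ := by ring
        have hdiff : ‖g m - g y‖ ≤ (40 / L + ‖s‖) * (m : ℝ) ^ (-s.re - 1) := by
          have e2 : g m - g y = ((trap X ((d : ℝ) * m) - trap X ((d : ℝ) * y) : ℝ) : ℂ)
                * (y : ℂ) ^ (-s) -
              (trap X ((d : ℝ) * m) : ℂ) * ((y : ℂ) ^ (-s) - ((m : ℝ) : ℂ) ^ (-s)) := by
            simp only [hg]
            push_cast
            ring
          rw [e2]
          refine (norm_sub_le _ _).trans ?_
          rw [norm_mul, norm_mul, Complex.norm_real, Complex.norm_real, add_mul]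
          have t1 : ‖trap X ((d : ℝ) * m) - trap X ((d : ℝ) * y)‖ ≤ 40 / L * (1 / m) := by
            rw [Real.norm_eq_abs]
            refine (trap_lip hLpos).trans ?_
            refine mul_le_mul_of_nonneg_left ?_ (by positivity)
            rw [Real.log_mul hd0.ne' hm0.ne', Real.log_mul hd0.ne' hy0.ne', abs_sub_comm]
            have h5 : Real.log d + Real.log y - (Real.log d + Real.log m) = Real.log (y / m) := by
              rw [Real.log_div hy0.ne' hm0.ne']; ring
            rw [h5, abs_of_nonneg (Real.log_nonneg (by rw [one_le_div hm0]; exact hym))]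
            have h6 := Real.log_le_sub_one_of_pos (div_pos hy0 hm0)
            have h7 : y / m - 1 ≤ 1 / m := by
              rw [div_sub_one hm0.ne']
              exact div_le_div_of_nonneg_right (by linarith) hm0.le
            exact h6.trans h7
          have t2 : ‖(y : ℂ) ^ (-s)‖ ≤ (m : ℝ) ^ (-s.re) := by
            rw [Complex.norm_cpow_eq_rpow_re_of_pos hy0, Complex.neg_re]
            exact Real.rpow_le_rpow_of_nonpos hm0 hym (by linarith)
          have t3 : ‖(y : ℂ) ^ (-s) - ((m : ℝ) : ℂ) ^ (-s)‖ ≤ ‖s‖ * (m : ℝ) ^ (-s.re - 1) := by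
            refine (cpow_sub_le hs0 (by linarith) hm0 hym).trans ?_
            have h8 : 0 ≤ ‖s‖ * (m : ℝ) ^ (-s.re - 1) := by positivity
            nlinarith
          have t4 : ‖trap X ((d : ℝ) * m)‖ ≤ 1 := by
            rw [Real.norm_of_nonneg (trap_nonneg _ _)]; exact trap_le_one _ _
          have h9 : (m : ℝ) ^ (-s.re - 1) = 1 / m * (m : ℝ) ^ (-s.re) := by
            rw [Real.rpow_sub hm0, Real.rpow_one]; ring
          refine add_le_add ?_ ?_
          · rw [h9, ← mul_assoc]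
            exact mul_le_mul t1 t2 (norm_nonneg _) (by positivity)
          · calc _ ≤ 1 * (‖s‖ * (m : ℝ) ^ (-s.re - 1)) :=
                  mul_le_mul t4 t3 (norm_nonneg _) (by norm_num)
              _ = _ := one_mul _
        have h10 : 40 / L + ‖s‖ ≤ 40 * (1 + ‖s‖) := by
          have h11 : 40 / L ≤ 40 := div_le_self (by norm_num) hL
          nlinarith [norm_nonneg s]
        calc ‖g m - g y‖ ≤ (40 / L + ‖s‖) * (m : ℝ) ^ (-s.re - 1) := hdiff
          _ ≤ (40 * (1 + ‖s‖)) * (2 * X ^ (-(1 / 100) : ℝ) * (m : ℝ) ^ (-(6 / 5) : ℝ)) :=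
            mul_le_mul h10 hmpow (Real.rpow_nonneg hm0.le _) (by positivity)
          _ = _ := by ring
    have h12 := intervalIntegral.norm_integral_le_of_norm_le_const hbound
    have h13 : |(((m + 1 : ℕ) : ℝ)) - (m : ℝ)| = 1 := by push_cast; simp
    rwa [h13, mul_one] at h12
  calc ‖∑ m ∈ Ico 1 (M + 1), ((trap X ((d : ℝ) * m) : ℂ) * (m : ℂ) ^ (-s) -
        ∫ y in ((m : ℕ) : ℝ)..((m + 1 : ℕ) : ℝ), g y)‖
      ≤ ∑ m ∈ Ico 1 (M + 1), 80 * (1 + ‖s‖) * X ^ (-(1 / 100) : ℝ) * (m : ℝ) ^ (-(6 / 5) : ℝ) :=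
        norm_sum_le_of_le _ hterm
    _ = 80 * (1 + ‖s‖) * X ^ (-(1 / 100) : ℝ) * ∑ m ∈ Ico 1 (M + 1), (m : ℝ) ^ (-(6 / 5) : ℝ) := by
        rw [Finset.mul_sum]
    _ ≤ 80 * (1 + ‖s‖) * X ^ (-(1 / 100) : ℝ) * B := by
        refine mul_le_mul_of_nonneg_left ?_ (by positivity)
        rw [hB]
        exact hsum.sum_le_tsum _ fun m _ => Real.rpow_nonneg (Nat.cast_nonneg m) _
    _ ≤ (80 * B + 1) * (1 + ‖s‖) * X ^ (-(1 / 100) : ℝ) := by
        have h1 : 0 ≤ (1 + ‖s‖) * X ^ (-(1 / 100) : ℝ) := by positivity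
        nlinarith

end Pool.Agent.Helper7.KSZ
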